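import Pool.Agent.Y720.WL.Cy2

/-!
# The condition for the transfer from one direction to another
-/

set_option autoImplicit false

open Pool.Agent.Y720.MZ

namespace Pool.Agent.Q35.KC

variable {F : Type*} [Field F] [CharZero F] {α : Type*} [Fintype α] [DecidableEq α]

lemma dvd_of_roots {Q P : Polynomial F} (hQ : Q ≠ 0)
    (hs : ∀ r : AlgebraicClosure F, Polynomial.aeval r Q = 0 →
      Polynomial.aeval r (Polynomial.derivative Q) ≠ 0)
    (h : ∀ r : AlgebraicClosure F, Polynomial.aeval r Q = 0 → Polynomial.aeval r P = 0) :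
    Q ∣ P := by
  set φ := algebraMap F (AlgebraicClosure F) with hφ
  by_cases hP : P = 0
  · rw [hP]; exact dvd_zero _
  have hQm : Q.map φ ≠ 0 := (Polynomial.map_ne_zero_iff φ.injective).2 hQ
  have hPm : P.map φ ≠ 0 := (Polynomial.map_ne_zero_iff φ.injective).2 hP
  have hQe : ∀ s : AlgebraicClosure F, (Q.map φ).eval s = Polynomial.aeval s Q := fun s => by
    rw [hφ, Polynomial.eval_map_algebraMap]
  have hPe : ∀ s : AlgebraicClosure F, (P.map φ).eval s = Polynomial.aeval s P := fun s => by
    rw [hφ, Polynomial.eval_map_algebraMap]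
  have hnd : (Q.map φ).roots.Nodup := by
    classical
    rw [Multiset.nodup_iff_count_le_one]
    intro r
    rw [Polynomial.count_roots]
    by_contra hlt
    push Not at hlt
    obtain ⟨h1, h2⟩ := (Polynomial.one_lt_rootMultiplicity_iff_isRoot hQm).1 hlt
    rw [Polynomial.IsRoot.def, hQe] at h1
    apply hs r h1
    rw [Polynomial.derivative_map, Polynomial.IsRoot.def, hφ,
      Polynomial.eval_map_algebraMap] at h2
    exact h2
  have h1 : Q.map φ ∣ P.map φ := (IsAlgClosed.dvd_iff_roots_le_roots hQm hPm).2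
    ((Multiset.le_iff_subset hnd).2 fun r hr => by
      rw [Polynomial.mem_roots hPm, Polynomial.IsRoot.def, hPe]
      exact h r (by rw [← hQe]; exact (Polynomial.mem_roots hQm).1 hr))
  exact (Polynomial.map_dvd_map' φ).1 h1

/-- **The condition for the transfer.** -/
theorem tr_of {g : MvPolynomial α F} {i j : α} {x : α → F}
    (h4 : (rst g x (Pi.single i 1)).natDegree ≤ 4) (hT : Tq g (Pi.single i 1) x ≠ 0)
    (hns : ¬ rst g x (Pi.single i 1) ∣ rst (MvPolynomial.pderiv j g) x (Pi.single i 1))
    (hu : ∃ u : F, Tq g (Pi.single j 1) (fun a => x a + u * (Pi.single i 1 : α → F) a) ≠ 0) :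
    Tr g (Pi.single i 1) (Pi.single j 1) x := by
  refine ⟨?_, hu⟩
  by_contra hcon
  push Not at hcon
  apply hns
  have hsep : ∀ r : AlgebraicClosure F, Polynomial.aeval r (rst g x (Pi.single i 1)) = 0 →
      Polynomial.aeval r (Polynomial.derivative (rst g x (Pi.single i 1))) ≠ 0 :=
    fun r hr => Tq_root h4 hT hr
  refine dvd_of_roots ?_ hsep fun r hr => ?_
  · intro h0
    exact hsep 0 (by rw [h0, map_zero]) (by rw [h0, Polynomial.derivative_zero, map_zero])
  · have h1 := hsep r hr
    rw [rst_deriv, aeval_rst] at h1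
    rw [aeval_rst] at hr
    have h2 := hcon r hr h1
    rw [dd_single] at h2
    rw [aeval_rst]
    exact h2

end Pool.Agent.Q35.KC
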