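import Pool.Agent.Q35.KC.Gen

/-!
# Double covers of a product of two projective lines: the irregular fibres
-/

set_option autoImplicit false

open MvPolynomial Pool.Agent.Y720.MZ

namespace Pool.Agent.Q35.KC

/-- The curve in the direction `i` through `x` is smooth of genus one and not special. -/
def Reg {F : Type} [Field F] [CharZero F] {m : ℕ} (g : MvPolynomial (Fin m) F) (x : Fin m → F)
    (i : Fin m) : Prop :=
  Tq g (Pi.single i 1) x ≠ 0 ∧ ∀ j, j ≠ i →
    ¬ rst g x (Pi.single i 1) ∣ rst (pderiv j g) x (Pi.single i 1) ∧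
    ∃ u : F, Tq g (Pi.single j 1) (fun a => x a + u * (Pi.single i 1 : Fin m → F) a) ≠ 0

/-- KC-1 (REG): for two variables all but finitely many fibres are regular. -/
def S_REG : Prop :=
  ∀ (K : Type) [Field K] [CharZero K] (f : MvPolynomial (Fin 2) K),
    (∀ j, f.degreeOf j ≤ 4) →
    -- some curve in each direction is smooth of genus one
    (∀ j, ∃ z : Fin 2 → K, Tq f (Pi.single j 1) z ≠ 0) →
    -- `f` is not a product of two polynomials in one variable each
    f * pderiv 0 (pderiv 1 f) ≠ pderiv 0 f * pderiv 1 f →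
    ∀ (F : Type) [Field F] [CharZero F] (φ : K →+* F) (i j : Fin 2), i ≠ j →
      {c : F | ∃ x : Fin 2 → F, x j = c ∧ ¬ Reg (map φ f) x i}.Finite

end Pool.Agent.Q35.KC
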